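import Mathlib
import Pool.Agent.V5helper43.PR.Model
import Pool.Agent.V5helper43.PR.Lower
import Pool.Agent.V5helper43.PR.Upper

/-!
# Poisson random sticks in the plane: the exact criterion for a positive critical intensity

For every law of the length `L > 0`, `λ_c > 0` if and only if `r ^ 2 P (L ≥ r)` is bounded in `r`.
In particular `E L ^ 2 = ∞` does not imply `λ_c = 0`: take `P (L ≥ r) = 1 / r ^ 2` for `r ≥ 1`.
-/

set_option autoImplicit false
open MeasureTheory ProbabilityTheory
open scoped ENNReal NNReal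

namespace Pool.Agent.Results.MP_04d7a1_pr.ContinuumSticks

open Pool.Agent.V5helper43.PR

/-- The law of `1 / √U` with `U` uniform on `[0, 1]`. -/
noncomputable def pareto : Measure ℝ :=
  (volume : Measure unitInterval).map fun u : unitInterval => 1 / Real.sqrt (u : ℝ)

theorem pareto_meas : Measurable fun u : unitInterval => 1 / Real.sqrt (u : ℝ) := by
  fun_prop

instance : IsProbabilityMeasure pareto := by
  unfold pareto
  exact Measure.isProbabilityMeasure_map pareto_meas.aemeasurable

theorem pareto_Iic : pareto (Set.Iic 0) = 0 := by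
  unfold pareto
  rw [Measure.map_apply pareto_meas measurableSet_Iic]
  have : (fun u : unitInterval => 1 / Real.sqrt (u : ℝ)) ⁻¹' Set.Iic 0 ⊆ {0} := by
    intro u hu
    simp only [Set.mem_preimage, Set.mem_Iic] at hu
    by_contra hne
    have h1 : (0 : ℝ) < u := by
      rcases lt_or_eq_of_le u.2.1 with h | h
      · exact h
      · exact absurd (Subtype.ext h.symm : u = 0) hne
    have h2 : 0 < 1 / Real.sqrt (u : ℝ) := by positivity
    linarith
  exact measure_mono_null this (measure_singleton 0)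

theorem pareto_Ici (r : ℝ) (hr : 1 ≤ r) : pareto (Set.Ici r) = ENNReal.ofReal (1 / r ^ 2) := by
  unfold pareto
  rw [Measure.map_apply pareto_meas measurableSet_Ici]
  have hr0 : 0 < r := by linarith
  have hle : 1 / r ^ 2 ≤ 1 := by
    rw [div_le_one (by positivity)]
    nlinarith
  have hset : (fun u : unitInterval => 1 / Real.sqrt (u : ℝ)) ⁻¹' Set.Ici r
      = Set.Ioc (0 : unitInterval) ⟨1 / r ^ 2, by positivity, hle⟩ := by
    ext u
    simp only [Set.mem_preimage, Set.mem_Ici, Set.mem_Ioc]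
    constructor
    · intro h
      have h1 : (0 : ℝ) < u := by
        rcases lt_or_eq_of_le u.2.1 with h' | h'
        · exact h'
        · exfalso
          rw [← h', Real.sqrt_zero, div_zero] at h
          linarith
      refine ⟨h1, ?_⟩
      show (u : ℝ) ≤ 1 / r ^ 2
      have h2 : 0 < Real.sqrt (u : ℝ) := Real.sqrt_pos.mpr h1
      rw [le_div_iff₀ h2] at h
      rw [le_div_iff₀ (by positivity)]
      have h3 : (r * Real.sqrt (u : ℝ)) ^ 2 ≤ 1 ^ 2 := pow_le_pow_left₀ (by positivity) h 2
      rw [mul_pow, Real.sq_sqrt h1.le] at h3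
      linarith
    · rintro ⟨h1, h2⟩
      have h1' : (0 : ℝ) < u := h1
      have h2' : (u : ℝ) ≤ 1 / r ^ 2 := h2
      have h3 : 0 < Real.sqrt (u : ℝ) := Real.sqrt_pos.mpr h1'
      rw [le_div_iff₀ h3]
      have h4 : Real.sqrt (u : ℝ) ≤ 1 / r := by
        rw [Real.sqrt_le_left (by positivity), div_pow, one_pow]
        exact h2'
      calc r * Real.sqrt (u : ℝ) ≤ r * (1 / r) := mul_le_mul_of_nonneg_left h4 hr0.le
        _ = 1 := by field_simp
  rw [hset, unitInterval.volume_Ioc]
  congr 1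
  simp

theorem pareto_second : ∫⁻ L, ENNReal.ofReal (L ^ 2) ∂pareto = ⊤ := by
  have hmono : Monotone fun k : ℕ => (2 : ℝ) ^ k := fun a b hab =>
    pow_le_pow_right₀ (by norm_num) hab
  have hdisj : Pairwise (Function.onFun Disjoint fun k : ℕ => Set.Ico ((2 : ℝ) ^ k) (2 ^ (k + 1))) := by
    have := hmono.pairwise_disjoint_on_Ico_succ
    simpa [Order.succ_eq_add_one] using this
  rw [eq_top_iff]
  calc (⊤ : ℝ≥0∞) = ∑' _ : ℕ, ENNReal.ofReal (3 / 4) := by
        rw [ENNReal.tsum_const_eq_top_of_ne_zero]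
        simp
    _ ≤ ∑' k : ℕ, ∫⁻ L in Set.Ico ((2 : ℝ) ^ k) (2 ^ (k + 1)), ENNReal.ofReal (L ^ 2) ∂pareto := by
        refine ENNReal.tsum_le_tsum fun k => ?_
        have h1 : pareto (Set.Ico ((2 : ℝ) ^ k) (2 ^ (k + 1))) = ENNReal.ofReal (3 / 4 * (1 / 4) ^ k) := by
          have h2 : Set.Ico ((2 : ℝ) ^ k) (2 ^ (k + 1)) = Set.Ici ((2 : ℝ) ^ k) \ Set.Ici (2 ^ (k + 1)) := by
            ext x; simp
          rw [h2, measure_sdiff (Set.Ici_subset_Ici.mpr (hmono (Nat.le_succ k)))
            measurableSet_Ici.nullMeasurableSet (measure_ne_top _ _),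
            pareto_Ici _ (one_le_pow₀ (by norm_num)), pareto_Ici _ (one_le_pow₀ (by norm_num)),
            ← ENNReal.ofReal_sub _ (by positivity)]
          congr 1
          have h5 : (2 : ℝ) ^ k.succ = 2 ^ k * 2 := pow_succ 2 k
          have h3 : ((2 : ℝ) ^ k) ^ 2 = 4 ^ k := by rw [← pow_mul, mul_comm, pow_mul]; norm_num
          have h4 : ((2 : ℝ) ^ k * 2) ^ 2 = 4 * 4 ^ k := by rw [mul_pow, h3]; ring
          rw [h5, h3, h4, one_div_pow]
          field_simp
          norm_num
        calc ENNReal.ofReal (3 / 4)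
            = ENNReal.ofReal (4 ^ k) * pareto (Set.Ico ((2 : ℝ) ^ k) (2 ^ (k + 1))) := by
              rw [h1, ← ENNReal.ofReal_mul (by positivity)]
              congr 1
              rw [one_div_pow]
              field_simp
          _ = ∫⁻ _ in Set.Ico ((2 : ℝ) ^ k) (2 ^ (k + 1)), ENNReal.ofReal (4 ^ k) ∂pareto := by
              rw [setLIntegral_const]
          _ ≤ _ := by
              refine setLIntegral_mono' measurableSet_Ico fun L hL => ?_
              refine ENNReal.ofReal_le_ofReal ?_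
              have h3 : ((2 : ℝ) ^ k) ^ 2 = 4 ^ k := by rw [← pow_mul, mul_comm, pow_mul]; norm_num
              rw [← h3]
              exact pow_le_pow_left₀ (by positivity) hL.1 2
    _ = ∫⁻ L in ⋃ k : ℕ, Set.Ico ((2 : ℝ) ^ k) (2 ^ (k + 1)), ENNReal.ofReal (L ^ 2) ∂pareto := by
        rw [lintegral_iUnion (fun _ => measurableSet_Ico) hdisj]
    _ ≤ _ := setLIntegral_le_lintegral _ _

/-- **The exact criterion, and the answer to the question.** For every law `μ` of the length,
`λ_c > 0` if and only if `r ^ 2 P (L ≥ r)` is bounded. There is a law with `E L ^ 2 = ∞` and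
`λ_c > 0`, namely `P (L ≥ r) = 1 / r ^ 2` for `r ≥ 1`. -/
theorem result :
    (∀ (μ : Measure ℝ) [IsProbabilityMeasure μ], μ (Set.Iic 0) = 0 →
      (0 < critical μ ↔ ∃ C : ℝ, ∀ r : ℝ, 0 < r → r ^ 2 * (μ (Set.Ici r)).toReal ≤ C)) ∧
    (∃ (μ : Measure ℝ) (_ : IsProbabilityMeasure μ), μ (Set.Iic 0) = 0 ∧
      (∀ r : ℝ, 1 ≤ r → μ (Set.Ici r) = ENNReal.ofReal (1 / r ^ 2)) ∧
      ∫⁻ L, ENNReal.ofReal (L ^ 2) ∂μ = ⊤ ∧ 0 < critical μ) := by
  have hcrit : ∀ (μ : Measure ℝ) [IsProbabilityMeasure μ],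
      (0 < critical μ ↔ ∃ C : ℝ, ∀ r : ℝ, 0 < r → r ^ 2 * (μ (Set.Ici r)).toReal ≤ C) := by
    intro μ _
    constructor
    · intro hpos
      by_contra hno
      push Not at hno
      have hall : ∀ t : ℝ≥0, 0 < t → critical μ ≤ t := by
        intro t ht
        have h1 := percolates_pos μ (fun C => by
          obtain ⟨r, hr0, hr⟩ := hno C
          exact ⟨r, hr0, hr⟩) t ht
        exact iInf_le_of_le ⟨t, ht, h1⟩ le_rfl
      have hzero : critical μ = 0 := by
        refine le_antisymm (ENNReal.le_of_forall_pos_le_add fun ε hε _ => ?_) zero_le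
        rw [zero_add]
        exact hall ε hε
      rw [hzero] at hpos
      exact lt_irrefl _ hpos
    · rintro ⟨C, hC⟩
      refine critical_pos μ (ENNReal.ofReal C) ENNReal.ofReal_ne_top fun r hr => ?_
      have h1 : μ (Set.Ici r) = ENNReal.ofReal (μ (Set.Ici r)).toReal :=
        (ENNReal.ofReal_toReal (measure_ne_top _ _)).symm
      rw [h1, ← ENNReal.ofReal_mul (by positivity)]
      exact ENNReal.ofReal_le_ofReal (hC r hr)
  refine ⟨fun μ _ _ => hcrit μ, pareto, inferInstance, pareto_Iic, pareto_Ici, pareto_second, ?_⟩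
  rw [hcrit pareto]
  refine ⟨1, fun r hr => ?_⟩
  by_cases h1 : 1 ≤ r
  · rw [pareto_Ici r h1, ENNReal.toReal_ofReal (by positivity)]
    exact le_of_eq (by field_simp)
  · push Not at h1
    have h2 : (pareto (Set.Ici r)).toReal ≤ 1 := by
      have := ENNReal.toReal_mono (by simp) (prob_le_one (μ := pareto) (s := Set.Ici r))
      simpa using this
    have h3 : r ^ 2 ≤ 1 := by nlinarith
    calc r ^ 2 * (pareto (Set.Ici r)).toReal ≤ 1 * 1 :=
          mul_le_mul h3 h2 ENNReal.toReal_nonneg (by norm_num)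
      _ = 1 := by norm_num

end Pool.Agent.Results.MP_04d7a1_pr.ContinuumSticks
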